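import Mathlib

namespace Pool.Agent.Results.MP_0f105f_co.NonlinearTGQ

open scoped IsMulCommutative

/-- Two points are collinear when some line contains both. -/
def Collinear {P L : Type} (I : P → L → Prop) (p q : P) : Prop := ∃ M, I p M ∧ I q M

/-- Generalized quadrangle, given by its incidence relation `I` between points and lines. -/
structure IsGQ {P L : Type} (I : P → L → Prop) : Prop where
  unique_line : ∀ p q : P, p ≠ q → ∀ M N : L, I p M → I q M → I p N → I q N → M = N
  three_points : ∀ M : L, ∃ p q r : P, p ≠ q ∧ q ≠ r ∧ p ≠ r ∧ I p M ∧ I q M ∧ I r M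
  three_lines : ∀ p : P, ∃ M N K : L, M ≠ N ∧ N ≠ K ∧ M ≠ K ∧ I p M ∧ I p N ∧ I p K
  projection : ∀ (p : P) (M : L), ¬ I p M → ∃! q : P, I q M ∧ Collinear I p q

/-- The automorphism group: pairs of a permutation of the points and a permutation of the lines
that preserve incidence in both directions. -/
def Aut {P L : Type} (I : P → L → Prop) : Subgroup (Equiv.Perm P × Equiv.Perm L) where
  carrier := {e | ∀ p M, I (e.1 p) (e.2 M) ↔ I p M}
  one_mem' := fun _ _ => Iff.rfl
  mul_mem' := fun {e f} he hf p M => (he (f.1 p) (f.2 M)).trans (hf p M)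
  inv_mem' := fun {e} he p M => by
    have := he (e.1⁻¹ p) (e.2⁻¹ M)
    simpa using this.symm

/-- Elation about `x`: an automorphism that is the identity or fixes every line through `x` and
fixes no point not collinear with `x`. -/
def IsElation {P L : Type} (I : P → L → Prop) (x : P) (e : Equiv.Perm P × Equiv.Perm L) : Prop :=
  e ∈ Aut I ∧ (e = 1 ∨ ((∀ M, I x M → e.2 M = M) ∧ ∀ p, ¬ Collinear I x p → e.1 p ≠ p))

/-- Translation generalized quadrangle with translation point `x` and translation group `G`: an
abelian group of elations about `x` acting sharply transitively on the points not collinear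
with `x`. -/
structure IsTGQ {P L : Type} (I : P → L → Prop) (x : P)
    (G : Subgroup (Equiv.Perm P × Equiv.Perm L)) : Prop where
  isGQ : IsGQ I
  elation : ∀ e ∈ G, IsElation I x e
  sharply_transitive : ∀ p q, ¬ Collinear I x p → ¬ Collinear I x q → ∃! e, e ∈ G ∧ e.1 p = q
  comm : IsMulCommutative G

/-- The kernel of a translation generalized quadrangle, computed at the point `y` not collinear
with `x`, as a subring of the endomorphism ring of the (additively written) group `G`. For a line
`N` through `x`, the line `M` through `y` meeting `N` and the common point `z` of `N` and `M`,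
the endomorphism maps the stabiliser in `G` of the line `M` into itself, and the stabiliser in
`G` of the point `z` into itself. -/
def kernel {P L : Type} (I : P → L → Prop) (x y : P)
    (G : Subgroup (Equiv.Perm P × Equiv.Perm L)) [IsMulCommutative G] :
    Subring (AddMonoid.End (Additive G)) where
  carrier := {α | ∀ (N M : L) (z : P), I x N → I y M → I z N → I z M →
    (∀ g : G, g.1.2 M = M → (α (Additive.ofMul g)).toMul.1.2 M = M) ∧
    (∀ g : G, g.1.1 z = z → (α (Additive.ofMul g)).toMul.1.1 z = z)}
  zero_mem' := fun N M z _ _ _ _ => ⟨fun g _ => rfl, fun g _ => rfl⟩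
  one_mem' := fun N M z _ _ _ _ => ⟨fun g h => h, fun g h => h⟩
  add_mem' := by
    intro α β hα hβ N M z h1 h2 h3 h4
    obtain ⟨a1, a2⟩ := hα N M z h1 h2 h3 h4
    obtain ⟨b1, b2⟩ := hβ N M z h1 h2 h3 h4
    refine ⟨fun g hg => ?_, fun g hg => ?_⟩
    · change (α (Additive.ofMul g)).toMul.1.2 ((β (Additive.ofMul g)).toMul.1.2 M) = M
      rw [b1 g hg, a1 g hg]
    · change (α (Additive.ofMul g)).toMul.1.1 ((β (Additive.ofMul g)).toMul.1.1 z) = z
      rw [b2 g hg, a2 g hg]
  neg_mem' := by
    intro α hα N M z h1 h2 h3 h4
    obtain ⟨a1, a2⟩ := hα N M z h1 h2 h3 h4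
    refine ⟨fun g hg => ?_, fun g hg => ?_⟩
    · change ((α (Additive.ofMul g)).toMul.1.2)⁻¹ M = M
      rw [Equiv.Perm.inv_eq_iff_eq]
      exact (a1 g hg).symm
    · change ((α (Additive.ofMul g)).toMul.1.1)⁻¹ z = z
      rw [Equiv.Perm.inv_eq_iff_eq]
      exact (a2 g hg).symm
  mul_mem' := by
    intro α β hα hβ N M z h1 h2 h3 h4
    obtain ⟨a1, a2⟩ := hα N M z h1 h2 h3 h4
    obtain ⟨b1, b2⟩ := hβ N M z h1 h2 h3 h4
    exact ⟨fun g hg => a1 _ (b1 g hg), fun g hg => a2 _ (b2 g hg)⟩

section geometry

variable {G U V ι : Type} [AddCommGroup G] [AddCommGroup U] [AddCommGroup V]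

inductive Pt (G U ι : Type) : Type
  | aff : G → Pt G U ι
  | mid : ι → U → Pt G U ι
  | inf : Pt G U ι

inductive Ln (U V ι : Type) : Type
  | aff : ι → U → V → Ln U V ι
  | inf : ι → Ln U V ι

/-- incidence in the coset geometry with coordinate maps `u`, `v` -/
def Inc (u : ι → G →+ U) (v : ι → G →+ V) : Pt G U ι → Ln U V ι → Prop
  | .aff g, .aff i a b => u i g = a ∧ v i g = b
  | .aff _, .inf _ => False
  | .mid i a, .aff j c _ => i = j ∧ a = c
  | .mid i _, .inf j => i = j
  | .inf, .aff _ _ _ => False
  | .inf, .inf _ => True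

variable (u : ι → G →+ U) (v : ι → G →+ V)

structure Good : Prop where
  hU : ∃ a : U, a ≠ 0
  hV : ∃ b : V, b ≠ 0
  three : ∃ i j k : ι, i ≠ j ∧ j ≠ k ∧ i ≠ k
  h3 : ∀ i j, i ≠ j → ∀ (a : U) (b : V) (c : U), ∃! g : G, u i g = a ∧ v i g = b ∧ u j g = c
  h4 : ∀ i, ∀ a : U, a ≠ 0 → ∀ b : V, ∃! d : G, (∃ j, u j d = 0 ∧ v j d = 0) ∧ u i d = a ∧ v i d = b

variable {u v}

theorem Good.other (h : Good u v) (i : ι) : ∃ j, i ≠ j := by
  obtain ⟨a, b, c, h1, h2, h3⟩ := h.three
  by_cases hi : i = a
  · exact ⟨b, hi ▸ h1⟩
  · exact ⟨a, hi⟩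

theorem Good.k2 (h : Good u v) {i j : ι} (hij : i ≠ j) {d : G} (h1 : u i d = 0) (h2 : u j d = 0)
    (h3 : v j d = 0) : d = 0 := by
  obtain ⟨g, _, hg⟩ := h.h3 j i hij.symm 0 0 0
  rw [hg d ⟨h2, h3, h1⟩, hg 0 ⟨map_zero _, map_zero _, map_zero _⟩]

theorem Good.inj (h : Good u v) {i : ι} {d d' : G} (h1 : u i d = u i d') (h2 : v i d = v i d')
    (h3 : ∃ j, i ≠ j ∧ u j d = u j d') : d = d' := by
  obtain ⟨j, hij, h3⟩ := h3
  obtain ⟨g, _, hg⟩ := h.h3 i j hij (u i d') (v i d') (u j d')
  rw [hg d ⟨h1, h2, h3⟩, hg d' ⟨rfl, rfl, rfl⟩]

theorem collinear_inf_aff (g : G) : ¬ Collinear (Inc u v) .inf (.aff g) := by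
  rintro ⟨M, h1, h2⟩
  cases M
  · exact h1
  · exact h2

theorem exists_aff_of_not_collinear {p : Pt G U ι} (hι : Nonempty ι)
    (hp : ¬ Collinear (Inc u v) .inf p) : ∃ g, p = .aff g := by
  cases p with
  | aff g => exact ⟨g, rfl⟩
  | mid i a => exact absurd ⟨.inf i, trivial, rfl⟩ hp
  | inf => exact absurd ⟨.inf hι.some, trivial, trivial⟩ hp

theorem Good.isGQ (h : Good u v) : IsGQ (Inc u v) where
  unique_line := by
    intro p q hpq M N h1 h2 h3 h4
    cases p with
    | aff g =>
      cases q with
      | aff g' =>
        cases M with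
        | inf i => exact h1.elim
        | aff i a b =>
          cases N with
          | inf j => exact h3.elim
          | aff j c d =>
            obtain ⟨rfl, rfl⟩ := h1
            obtain ⟨e1, e2⟩ := h2
            obtain ⟨rfl, rfl⟩ := h3
            obtain ⟨e3, e4⟩ := h4
            by_cases hij : i = j
            · subst hij; rfl
            · exfalso
              apply hpq
              have := h.inj e1.symm e2.symm ⟨j, hij, e3.symm⟩
              rw [this]
      | mid j c =>
        cases M with
        | inf i => exact h1.elim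
        | aff i a b =>
          cases N with
          | inf j => exact h3.elim
          | aff k e d =>
            obtain ⟨rfl, rfl⟩ := h1
            obtain ⟨e1, e2⟩ := h2
            obtain ⟨rfl, rfl⟩ := h3
            obtain ⟨e3, e4⟩ := h4
            subst e1; subst e3; rfl
      | inf =>
        cases M with
        | inf i => exact h1.elim
        | aff i a b => exact h2.elim
    | mid i a =>
      cases q with
      | aff g =>
        cases M with
        | inf i => exact h2.elim
        | aff k e d =>
          cases N with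
          | inf j => exact h4.elim
          | aff k e d =>
            obtain ⟨rfl, rfl⟩ := h2
            obtain ⟨rfl, e2⟩ := h1
            obtain ⟨rfl, rfl⟩ := h4
            obtain ⟨rfl, e4⟩ := h3
            rfl
      | mid j b =>
        cases M with
        | aff k e d =>
          obtain ⟨rfl, rfl⟩ := h1
          obtain ⟨rfl, rfl⟩ := h2
          exact absurd rfl hpq
        | inf k =>
          cases N with
          | aff k' e d =>
            obtain ⟨rfl, rfl⟩ := h3
            obtain ⟨rfl, rfl⟩ := h4
            exact absurd rfl hpq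
          | inf k' =>
            have e1 : i = k := h1
            have e2 : i = k' := h3
            rw [← e1, ← e2]
      | inf =>
        cases M with
        | aff k e d => exact h2.elim
        | inf k =>
          cases N with
          | aff k' e d => exact h4.elim
          | inf k' =>
            have e1 : i = k := h1
            have e2 : i = k' := h3
            rw [← e1, ← e2]
    | inf =>
      cases q with
      | aff g =>
        cases M with
        | aff k e d => exact h1.elim
        | inf k => exact h2.elim
      | mid i a =>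
        cases M with
        | aff k e d => exact h1.elim
        | inf k =>
          cases N with
          | aff k' e d => exact h3.elim
          | inf k' =>
            have e1 : i = k := h2
            have e2 : i = k' := h4
            rw [← e1, ← e2]
      | inf => exact absurd rfl hpq
  three_points := by
    intro M
    obtain ⟨a0, ha0⟩ := h.hU
    cases M with
    | inf i =>
      refine ⟨.inf, .mid i 0, .mid i a0, by simp, ?_, by simp, trivial, rfl, rfl⟩
      intro hh
      injection hh with _ h2
      exact ha0 h2.symm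
    | aff i a b =>
      obtain ⟨j, hij⟩ := h.other i
      obtain ⟨g, ⟨g1, g2, g3⟩, _⟩ := h.h3 i j hij a b 0
      obtain ⟨g', ⟨g1', g2', g3'⟩, _⟩ := h.h3 i j hij a b a0
      refine ⟨.mid i a, .aff g, .aff g', by simp, ?_, by simp, ⟨rfl, rfl⟩, ⟨g1, g2⟩, ⟨g1', g2'⟩⟩
      intro hh
      injection hh with h2
      apply ha0
      rw [← g3', ← g3, h2]
  three_lines := by
    intro p
    obtain ⟨i, j, k, hij, hjk, hik⟩ := h.three
    obtain ⟨b0, hb0⟩ := h.hV
    cases p with
    | inf =>
      refine ⟨.inf i, .inf j, .inf k, ?_, ?_, ?_, trivial, trivial, trivial⟩ <;>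
      · intro hh; injection hh with hh; contradiction
    | aff g =>
      refine ⟨.aff i (u i g) (v i g), .aff j (u j g) (v j g), .aff k (u k g) (v k g),
        ?_, ?_, ?_, ⟨rfl, rfl⟩, ⟨rfl, rfl⟩, ⟨rfl, rfl⟩⟩ <;>
      · intro hh; injection hh with hh; contradiction
    | mid l a =>
      refine ⟨.inf l, .aff l a 0, .aff l a b0, by simp, ?_, by simp, rfl, ⟨rfl, rfl⟩, ⟨rfl, rfl⟩⟩
      intro hh
      injection hh with _ _ h3
      exact hb0 h3.symm
  projection := by
    intro p M hpM
    cases p with
    | inf =>
      cases M with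
      | inf i => exact absurd trivial hpM
      | aff i a b =>
        refine ⟨.mid i a, ⟨⟨rfl, rfl⟩, .inf i, trivial, rfl⟩, ?_⟩
        rintro q ⟨hq1, N, hN1, hN2⟩
        cases q with
        | inf => exact hq1.elim
        | aff g => exact absurd ⟨N, hN1, hN2⟩ (collinear_inf_aff g)
        | mid j c => obtain ⟨rfl, rfl⟩ := hq1; rfl
    | mid j w =>
      cases M with
      | inf i =>
        have hij : j ≠ i := hpM
        refine ⟨.inf, ⟨trivial, .inf j, rfl, trivial⟩, ?_⟩
        rintro q ⟨hq1, N, hN1, hN2⟩
        cases q with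
        | inf => rfl
        | aff g => exact hq1.elim
        | mid k c =>
          exfalso
          have e1 : k = i := hq1
          cases N with
          | inf l => exact hij ((show j = l from hN1).trans ((show k = l from hN2).symm.trans e1))
          | aff l a b => exact hij (hN1.1.trans (hN2.1.symm.trans e1))
      | aff i a b =>
        by_cases hij : i = j
        · subst hij
          have haw : w ≠ a := fun hh => hpM ⟨rfl, hh⟩
          refine ⟨.mid i a, ⟨⟨rfl, rfl⟩, .inf i, rfl, rfl⟩, ?_⟩
          rintro q ⟨hq1, N, hN1, hN2⟩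
          cases q with
          | inf => exact hq1.elim
          | mid k c => obtain ⟨rfl, rfl⟩ := hq1; rfl
          | aff g =>
            exfalso
            cases N with
            | inf l => exact hN2.elim
            | aff l c d =>
              obtain ⟨rfl, rfl⟩ := hN1
              exact haw (hN2.1.symm.trans hq1.1)
        · obtain ⟨g, ⟨g1, g2, g3⟩, hg⟩ := h.h3 i j hij a b w
          refine ⟨.aff g, ⟨⟨g1, g2⟩, .aff j w (v j g), ⟨rfl, rfl⟩, ⟨g3, rfl⟩⟩, ?_⟩
          rintro q ⟨hq1, N, hN1, hN2⟩
          cases q with
          | inf => exact hq1.elim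
          | mid k c =>
            exfalso
            obtain ⟨rfl, rfl⟩ := hq1
            cases N with
            | inf l => exact hij ((show k = l from hN2).trans (show j = l from hN1).symm)
            | aff l c d => exact hij (hN2.1.trans hN1.1.symm)
          | aff g' =>
            cases N with
            | inf l => exact hN2.elim
            | aff l c d =>
              obtain ⟨rfl, rfl⟩ := hN1
              rw [hg g' ⟨hq1.1, hq1.2, hN2.1⟩]
    | aff g =>
      cases M with
      | inf i =>
        refine ⟨.mid i (u i g), ⟨rfl, .aff i (u i g) (v i g), ⟨rfl, rfl⟩, ⟨rfl, rfl⟩⟩, ?_⟩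
        rintro q ⟨hq1, N, hN1, hN2⟩
        cases q with
        | inf => exact absurd ⟨N, hN2, hN1⟩ (collinear_inf_aff g)
        | aff g' => exact hq1.elim
        | mid k c =>
          have e1 : k = i := hq1
          subst e1
          cases N with
          | inf l => exact hN1.elim
          | aff l a b =>
            obtain ⟨rfl, rfl⟩ := hN2
            rw [← hN1.1]
      | aff i a b =>
        by_cases hu : u i g = a
        · have hv : v i g ≠ b := fun hh => hpM ⟨hu, hh⟩
          refine ⟨.mid i a, ⟨⟨rfl, rfl⟩, .aff i a (v i g), ⟨hu, rfl⟩, ⟨rfl, rfl⟩⟩, ?_⟩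
          rintro q ⟨hq1, N, hN1, hN2⟩
          cases q with
          | inf => exact hq1.elim
          | mid k c => obtain ⟨rfl, rfl⟩ := hq1; rfl
          | aff g' =>
            exfalso
            cases N with
            | inf l => exact hN2.elim
            | aff l c d =>
              by_cases hil : i = l
              · subst hil
                exact hv (hN1.2.trans (hN2.2.symm.trans hq1.2))
              · have : g - g' = 0 := by
                  apply h.k2 hil (d := g - g')
                  · rw [map_sub, hu, hq1.1, sub_self]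
                  · rw [map_sub, hN1.1, hN2.1, sub_self]
                  · rw [map_sub, hN1.2, hN2.2, sub_self]
                rw [sub_eq_zero] at this
                rw [this] at hv
                exact hv hq1.2
        · obtain ⟨d, ⟨⟨j, d1, d2⟩, d3, d4⟩, hd⟩ := h.h4 i (a - u i g)
            (fun hh => hu (sub_eq_zero.mp hh).symm) (b - v i g)
          refine ⟨.aff (g + d), ⟨⟨?_, ?_⟩, .aff j (u j g) (v j g), ⟨rfl, rfl⟩, ⟨?_, ?_⟩⟩, ?_⟩
          · rw [map_add, d3]; abel
          · rw [map_add, d4]; abel
          · rw [map_add, d1, add_zero]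
          · rw [map_add, d2, add_zero]
          · rintro q ⟨hq1, N, hN1, hN2⟩
            cases q with
            | inf => exact hq1.elim
            | mid k c =>
              exfalso
              obtain ⟨rfl, rfl⟩ := hq1
              cases N with
              | inf l => exact hN1.elim
              | aff l a b =>
                obtain ⟨rfl, rfl⟩ := hN2
                exact hu hN1.1
            | aff g' =>
              cases N with
              | inf l => exact hN2.elim
              | aff l c e =>
                have := hd (g' - g) ⟨⟨l, ?_, ?_⟩, ?_, ?_⟩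
                · rw [← this]; simp
                · rw [map_sub, hN1.1, hN2.1, sub_self]
                · rw [map_sub, hN1.2, hN2.2, sub_self]
                · rw [map_sub, hq1.1]
                · rw [map_sub, hq1.2]

/-- translation by `d` on points -/
def onPt (u : ι → G →+ U) (d : G) : Pt G U ι → Pt G U ι
  | .aff g => .aff (g + d)
  | .mid i a => .mid i (a + u i d)
  | .inf => .inf

/-- translation by `d` on lines -/
def onLn (u : ι → G →+ U) (v : ι → G →+ V) (d : G) : Ln U V ι → Ln U V ι
  | .aff i a b => .aff i (a + u i d) (b + v i d)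
  | .inf i => .inf i

theorem onPt_zero (u : ι → G →+ U) (p : Pt G U ι) : onPt u 0 p = p := by
  cases p <;> simp [onPt]

theorem onPt_add (u : ι → G →+ U) (d e : G) (p : Pt G U ι) :
    onPt u (d + e) p = onPt u d (onPt u e p) := by
  cases p <;> simp [onPt] <;> abel

theorem onLn_zero (u : ι → G →+ U) (v : ι → G →+ V) (p : Ln U V ι) : onLn u v 0 p = p := by
  cases p <;> simp [onLn]

theorem onLn_add (u : ι → G →+ U) (v : ι → G →+ V) (d e : G) (p : Ln U V ι) :
    onLn u v (d + e) p = onLn u v d (onLn u v e p) := by
  cases p with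
  | inf i => rfl
  | aff i a b =>
    simp only [onLn, map_add]
    congr 1 <;> abel

/-- the pair of permutations given by the translation by `d` -/
def trans (u : ι → G →+ U) (v : ι → G →+ V) (d : G) :
    Equiv.Perm (Pt G U ι) × Equiv.Perm (Ln U V ι) :=
  (⟨onPt u d, onPt u (-d), fun p => by rw [← onPt_add, neg_add_cancel, onPt_zero],
    fun p => by rw [← onPt_add, add_neg_cancel, onPt_zero]⟩,
   ⟨onLn u v d, onLn u v (-d), fun p => by rw [← onLn_add, neg_add_cancel, onLn_zero],
    fun p => by rw [← onLn_add, add_neg_cancel, onLn_zero]⟩)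

/-- the homomorphism from the coordinate group to the translation group -/
def transHom (u : ι → G →+ U) (v : ι → G →+ V) :
    Multiplicative G →* Equiv.Perm (Pt G U ι) × Equiv.Perm (Ln U V ι) where
  toFun d := trans u v d.toAdd
  map_one' := by
    refine Prod.ext (Equiv.ext fun p => ?_) (Equiv.ext fun p => ?_)
    · exact onPt_zero u p
    · exact onLn_zero u v p
  map_mul' d e := by
    refine Prod.ext (Equiv.ext fun p => ?_) (Equiv.ext fun p => ?_)
    · exact onPt_add u _ _ p
    · exact onLn_add u v _ _ p

theorem trans_mem_Aut (d : G) : trans u v d ∈ Aut (Inc u v) := by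
  intro p M
  change Inc u v (onPt u d p) (onLn u v d M) ↔ Inc u v p M
  cases p <;> cases M <;> simp [Inc, onPt, onLn]
  rintro rfl
  exact ⟨fun h => add_right_cancel h, fun h => by rw [h]⟩

theorem trans_inj {d e : G} (h : trans u v d = trans u v e) : d = e := by
  have := congrArg (fun t => t.1 (.aff 0)) h
  change (Pt.aff (0 + d) : Pt G U ι) = .aff (0 + e) at this
  injection this with h1
  simpa using h1

instance : IsMulCommutative (transHom u v).range := by
  refine ⟨⟨?_⟩⟩
  rintro ⟨_, d, rfl⟩ ⟨_, e, rfl⟩
  apply Subtype.ext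
  change transHom u v d * transHom u v e = transHom u v e * transHom u v d
  rw [← map_mul, ← map_mul, mul_comm]

theorem Good.isTGQ (h : Good u v) : IsTGQ (Inc u v) .inf (transHom u v).range where
  isGQ := h.isGQ
  elation := by
    rintro _ ⟨d, rfl⟩
    refine ⟨trans_mem_Aut _, ?_⟩
    by_cases hd : d.toAdd = 0
    · left
      have : d = 1 := hd
      rw [this, map_one]
    · right
      constructor
      · intro M hM
        cases M with
        | aff i a b => exact hM.elim
        | inf i => rfl
      · intro p hp
        obtain ⟨i, _⟩ := h.three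
        obtain ⟨g, rfl⟩ := exists_aff_of_not_collinear ⟨i⟩ hp
        intro hh
        change (Pt.aff (g + d.toAdd) : Pt G U ι) = .aff g at hh
        injection hh with h1
        exact hd (by simpa using h1)
  sharply_transitive := by
    intro p q hp hq
    obtain ⟨i, _⟩ := h.three
    obtain ⟨g, rfl⟩ := exists_aff_of_not_collinear ⟨i⟩ hp
    obtain ⟨g', rfl⟩ := exists_aff_of_not_collinear ⟨i⟩ hq
    refine ⟨transHom u v (Multiplicative.ofAdd (g' - g)), ⟨⟨_, rfl⟩, ?_⟩, ?_⟩
    · change (Pt.aff (g + (g' - g)) : Pt G U ι) = .aff g'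
      congr 1; abel
    · rintro _ ⟨⟨d, rfl⟩, hd⟩
      change (Pt.aff (g + d.toAdd) : Pt G U ι) = .aff g' at hd
      injection hd with h1
      congr 1
      change d.toAdd = g' - g
      rw [← h1]; abel
  comm := inferInstance

/-- the homomorphism from the coordinate group to the additively written translation group -/
def toTr (u : ι → G →+ U) (v : ι → G →+ V) : G →+ Additive (transHom u v).range where
  toFun d := Additive.ofMul ⟨trans u v d, ⟨Multiplicative.ofAdd d, rfl⟩⟩
  map_zero' := by
    apply Additive.toMul.injective
    apply Subtype.ext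
    exact (transHom u v).map_one
  map_add' d e := by
    apply Additive.toMul.injective
    apply Subtype.ext
    exact (transHom u v).map_mul (Multiplicative.ofAdd d) (Multiplicative.ofAdd e)

theorem toTr_bijective (u : ι → G →+ U) (v : ι → G →+ V) : Function.Bijective (toTr u v) := by
  constructor
  · intro d e h
    exact trans_inj (congrArg (fun t => (Additive.toMul t).1) h)
  · intro t
    obtain ⟨d, hd⟩ := (Additive.toMul t).2
    refine ⟨d.toAdd, ?_⟩
    apply Additive.toMul.injective
    apply Subtype.ext
    exact hd

/-- the endomorphism of the translation group induced by an endomorphism of the coordinate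
group -/
noncomputable def indEnd (u : ι → G →+ U) (v : ι → G →+ V) (t : G →+ G) :
    AddMonoid.End (Additive (transHom u v).range) :=
  ((toTr u v).comp t).comp
    (AddEquiv.ofBijective (toTr u v) (toTr_bijective u v)).symm.toAddMonoidHom

theorem indEnd_apply (t : G →+ G) (d : G) :
    indEnd u v t (toTr u v d) = toTr u v (t d) := by
  change (toTr u v) (t ((AddEquiv.ofBijective (toTr u v) (toTr_bijective u v)).symm
    ((AddEquiv.ofBijective (toTr u v) (toTr_bijective u v)) d))) = _
  rw [AddEquiv.symm_apply_apply]

theorem indEnd_mem (t : G →+ G) (ht1 : ∀ i d, u i d = 0 → u i (t d) = 0)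
    (ht2 : ∀ i d, u i d = 0 → v i d = 0 → v i (t d) = 0) (g0 : G) :
    indEnd u v t ∈ kernel (Inc u v) .inf (.aff g0) (transHom u v).range := by
  intro N M z h1 h2 h3 h4
  cases N with
  | aff i a b => exact h1.elim
  | inf i =>
    cases M with
    | inf j => exact h2.elim
    | aff j a b =>
      cases z with
      | aff g => exact h3.elim
      | inf => exact h4.elim
      | mid k c =>
        refine ⟨fun g hg => ?_, fun g hg => ?_⟩
        · obtain ⟨d, hd⟩ := (toTr_bijective u v).2 (Additive.ofMul g)
          rw [← hd, indEnd_apply]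
          have hg' : onLn u v d (.aff j a b) = .aff j a b := by
            have : g = Additive.toMul (toTr u v d) := by rw [hd]; rfl
            rw [this] at hg
            exact hg
          change onLn u v (t d) (.aff j a b) = .aff j a b
          simp only [onLn, Ln.aff.injEq, add_eq_left, true_and] at hg' ⊢
          exact ⟨ht1 j d hg'.1, ht2 j d hg'.1 hg'.2⟩
        · obtain ⟨d, hd⟩ := (toTr_bijective u v).2 (Additive.ofMul g)
          rw [← hd, indEnd_apply]
          have hg' : onPt u d (.mid k c) = .mid k c := by
            have : g = Additive.toMul (toTr u v d) := by rw [hd]; rfl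
            rw [this] at hg
            exact hg
          change onPt u (t d) (.mid k c) = .mid k c
          simp only [onPt, Pt.mid.injEq, add_eq_left, true_and] at hg' ⊢
          exact ht1 k d hg'

/-- abstract form of the construction -/
theorem Good.main (h : Good u v) (t : G →+ G) (ht1 : ∀ i d, u i d = 0 → u i (t d) = 0)
    (ht2 : ∀ i d, u i d = 0 → v i d = 0 → v i (t d) = 0) (ht0 : ∃ d, t d ≠ 0)
    (ht : ¬ Function.Surjective t) :
    ∃ (P L : Type) (I : P → L → Prop) (x : P) (G : Subgroup (Equiv.Perm P × Equiv.Perm L))
      (_ : IsMulCommutative G), IsTGQ I x G ∧ (∃ y, ¬ Collinear I x y) ∧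
      ∀ y, ¬ Collinear I x y → ∃ a ∈ kernel I x y G, a ≠ 0 ∧
        ¬ ∃ b ∈ kernel I x y G, a * b = 1 ∧ b * a = 1 := by
  refine ⟨_, _, Inc u v, .inf, (transHom u v).range, inferInstance, h.isTGQ,
    ⟨.aff 0, collinear_inf_aff 0⟩, ?_⟩
  intro y hy
  obtain ⟨i, _⟩ := h.three
  obtain ⟨g, rfl⟩ := exists_aff_of_not_collinear ⟨i⟩ hy
  refine ⟨indEnd u v t, indEnd_mem t ht1 ht2 g, ?_, ?_⟩
  · intro h1
    obtain ⟨d, hd⟩ := ht0
    apply hd
    have h2 : toTr u v (t d) = toTr u v 0 := by
      rw [← indEnd_apply, h1, map_zero]; rfl
    exact (toTr_bijective u v).1 h2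
  · rintro ⟨b, _, h1, _⟩
    apply ht
    intro d
    have h2 : indEnd u v t (b (toTr u v d)) = toTr u v d := DFunLike.congr_fun h1 (toTr u v d)
    obtain ⟨e, he⟩ := (toTr_bijective u v).2 (b (toTr u v d))
    rw [← he, indEnd_apply] at h2
    exact ⟨e, (toTr_bijective u v).1 h2⟩

end geometry


/-- exponents: finitely supported integer sequences, ordered by the largest index of difference -/
abbrev Ex : Type := Colex (ℤ →₀ ℤ)

/-- shift of indices by one -/
noncomputable def shift : Ex →+ Ex where
  toFun f := toColex (Finsupp.domCongr (Equiv.addRight (1 : ℤ)) (ofColex f))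
  map_zero' := by simp
  map_add' f g := by
    apply ofColex.injective
    rw [ofColex_toColex, ofColex_add, map_add]
    rfl

theorem shift_apply (f : Ex) (i : ℤ) : ofColex (shift f) i = ofColex f (i - 1) := by
  simp [shift, sub_eq_add_neg]

theorem shift_surj : Function.Surjective shift := by
  intro g
  refine ⟨toColex (Finsupp.domCongr (Equiv.addRight (1 : ℤ)).symm (ofColex g)), ?_⟩
  apply ofColex.injective
  ext i
  rw [shift_apply]
  simp

theorem lt_iff (f g : Ex) : f < g ↔ ∃ i, (∀ j, i < j → ofColex f j = ofColex g j) ∧
    ofColex f i < ofColex g i := Iff.rfl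

theorem shift_lt {f g : Ex} (h : f < g) : shift f < shift g := by
  rw [lt_iff] at h ⊢
  obtain ⟨i, h1, h2⟩ := h
  refine ⟨i + 1, fun j hj => ?_, ?_⟩
  · rw [shift_apply, shift_apply]; exact h1 _ (by omega)
  · rw [shift_apply, shift_apply]; simpa using h2

theorem shift_strictMono : StrictMono shift := fun _ _ h => shift_lt h

theorem shift_inj : Function.Injective shift := shift_strictMono.injective

/-- the endomorphism `1 + shift` of the exponent group -/
noncomputable def sg : Ex →+ Ex := AddMonoidHom.id Ex + shift

theorem sg_apply (f : Ex) : sg f = f + shift f := rfl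

theorem sg_lt {f g : Ex} (h : f < g) : sg f < sg g := by
  rw [sg_apply, sg_apply]; exact add_lt_add h (shift_lt h)

theorem sg_strictMono : StrictMono sg := fun _ _ h => sg_lt h

theorem sg_inj : Function.Injective sg := sg_strictMono.injective

theorem sg_pos {f : Ex} (h : 0 < f) : 0 < sg f := by
  have := sg_lt h
  rwa [map_zero] at this

theorem sg_iter_ge {f : Ex} (h : 0 < f) (n : ℕ) : (shift^[n]) f ≤ (sg^[n]) f ∧ 0 < (sg^[n]) f := by
  induction n with
  | zero => simpa using h
  | succ n ih =>
    rw [Function.iterate_succ_apply', Function.iterate_succ_apply']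
    refine ⟨?_, sg_pos ih.2⟩
    rw [sg_apply]
    have h1 : shift ((shift^[n]) f) ≤ shift ((sg^[n]) f) := shift_strictMono.monotone ih.1
    calc shift ((shift^[n]) f) ≤ 0 + shift ((sg^[n]) f) := by simpa using h1
      _ ≤ _ := by gcongr; exact ih.2.le

theorem shift_iter_apply (f : Ex) (n : ℕ) (i : ℤ) :
    ofColex ((shift^[n]) f) i = ofColex f (i - n) := by
  induction n generalizing i with
  | zero => simp
  | succ n ih =>
    rw [Function.iterate_succ_apply', shift_apply, ih]
    congr 1; push_cast; ring

theorem sg_cofinal {f : Ex} (h : 0 < f) (g : Ex) : ∃ N : ℕ, ∀ n, N ≤ n → g < (sg^[n]) f := by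
  have h' := h
  rw [lt_iff] at h
  obtain ⟨i, h1, h2⟩ := h
  -- bound for the support of g
  obtain ⟨B, hB⟩ := (ofColex g).support.bddAbove
  refine ⟨(B - i + 1).toNat, fun n hn => ?_⟩
  refine lt_of_lt_of_le ?_ (sg_iter_ge h' n).1
  rw [lt_iff]
  have hBn : B < i + n := by omega
  have hz : ∀ j, B < j → ofColex g j = 0 := by
    intro j hj
    by_contra hne
    have := hB (Finsupp.mem_support_iff.mpr hne)
    omega
  refine ⟨i + n, fun j hj => ?_, ?_⟩
  · rw [shift_iter_apply, hz j (by omega), ← h1 (j - n) (by omega)]; rfl
  · rw [shift_iter_apply, hz (i + n) hBn]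
    simpa using h2

/-- alternating sum of the coefficients -/
noncomputable def alt : Ex →+ ℤ :=
  (Finsupp.liftAddHom (fun i : ℤ => AddMonoidHom.mulLeft ((Int.negOnePow i : ℤˣ) : ℤ))).comp
    (AddMonoidHom.mk' (fun f : Ex => ofColex f) (fun _ _ => rfl))

theorem alt_single (i : ℤ) (c : ℤ) :
    alt (toColex (Finsupp.single i c)) = ((Int.negOnePow i : ℤˣ) : ℤ) * c := by
  change (Finsupp.single i c).sum
    (fun i => (AddMonoidHom.mulLeft ((Int.negOnePow i : ℤˣ) : ℤ))) = _
  rw [Finsupp.sum_single_index (by simp)]
  rfl

theorem shift_single (i c : ℤ) :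
    shift (toColex (Finsupp.single i c)) = toColex (Finsupp.single (i + 1) c) := by
  simp [shift]

theorem alt_shift (f : Ex) : alt (shift f) = - alt f := by
  have h : (alt.comp shift) = - alt := by
    have hk : ∀ (φ ψ : Ex →+ ℤ), (∀ i c, φ (toColex (Finsupp.single i c)) =
        ψ (toColex (Finsupp.single i c))) → φ = ψ := by
      intro φ ψ H
      have : φ.comp (AddMonoidHom.mk' (fun f : ℤ →₀ ℤ => (toColex f : Ex)) (fun _ _ => rfl)) =
          ψ.comp (AddMonoidHom.mk' (fun f : ℤ →₀ ℤ => (toColex f : Ex)) (fun _ _ => rfl)) := by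
        apply Finsupp.addHom_ext
        intro i c
        exact H i c
      ext f
      exact DFunLike.congr_fun this (ofColex f)
    apply hk
    intro i c
    rw [AddMonoidHom.comp_apply, shift_single, alt_single, AddMonoidHom.neg_apply, alt_single,
      Int.negOnePow_succ]
    push_cast; ring
  exact DFunLike.congr_fun h f

theorem alt_sg (f : Ex) : alt (sg f) = 0 := by
  rw [sg_apply, map_add, alt_shift]; ring


/-- the field of Hahn series over the two element field -/
abbrev K : Type := HahnSeries Ex (ZMod 2)

/-- the endomorphism of `K` induced by `sg` -/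
noncomputable def sK : K →+* K :=
  HahnSeries.embDomainRingHom sg sg_inj (fun _ _ => sg_strictMono.le_iff_le)

theorem sK_coeff (f : K) (g : Ex) : (sK f).coeff (sg g) = f.coeff g := by
  unfold sK HahnSeries.embDomainRingHom
  exact HahnSeries.embDomain_coeff (f := ⟨⟨sg, sg_inj⟩, sg_strictMono.le_iff_le⟩) 

theorem sK_coeff_notMem (f : K) (g : Ex) (h : g ∉ Set.range sg) : (sK f).coeff g = 0 := by
  unfold sK HahnSeries.embDomainRingHom
  exact HahnSeries.embDomain_of_notMem_range (f := ⟨⟨sg, sg_inj⟩, sg_strictMono.le_iff_le⟩) h

theorem sK_single (g : Ex) (c : ZMod 2) : sK (HahnSeries.single g c) = HahnSeries.single (sg g) c := by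
  unfold sK HahnSeries.embDomainRingHom
  exact HahnSeries.embDomain_single (f := ⟨⟨sg, sg_inj⟩, sg_strictMono.le_iff_le⟩)

/-- all exponents of `f` are at least `g` -/
def AtLeast (g : Ex) (f : K) : Prop := ∀ h, h < g → f.coeff h = 0

theorem AtLeast.sK {f : K} {g : Ex} (hf : AtLeast g f) : AtLeast (sg g) (sK f) := by
  intro h hh
  by_cases hr : h ∈ Set.range sg
  · obtain ⟨k, rfl⟩ := hr
    rw [sK_coeff]
    exact hf _ (sg_strictMono.lt_iff_lt.mp hh)
  · exact sK_coeff_notMem _ _ hr

theorem AtLeast.mul {f w : K} {g : Ex} (hw : AtLeast 0 w) (hf : AtLeast g f) :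
    AtLeast g (w * f) := by
  intro h hh
  by_contra hne
  have h1 : h ∈ (w * f).support := hne
  obtain ⟨a, ha, b, hb, rfl⟩ := Set.mem_add.mp (HahnSeries.support_mul_subset h1)
  have ha0 : 0 ≤ a := by
    by_contra hlt
    exact ha (hw a (not_le.mp hlt))
  have hb0 : g ≤ b := by
    by_contra hlt
    exact hb (hf b (not_le.mp hlt))
  have : g ≤ a + b := by
    calc g = 0 + g := (zero_add g).symm
      _ ≤ a + b := add_le_add ha0 hb0
  exact absurd hh (not_lt.mpr this)

theorem AtLeast.add {f f' : K} {g : Ex} (h1 : AtLeast g f) (h2 : AtLeast g f') :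
    AtLeast g (f + f') := by
  intro h hh
  rw [HahnSeries.coeff_add, h1 h hh, h2 h hh, add_zero]

theorem AtLeast.sub {f f' : K} {g : Ex} (h1 : AtLeast g f) (h2 : AtLeast g f') :
    AtLeast g (f - f') := by
  intro h hh
  rw [HahnSeries.coeff_sub, h1 h hh, h2 h hh, sub_zero]

theorem AtLeast.mono {f : K} {g g' : Ex} (h : AtLeast g f) (hg : g' ≤ g) : AtLeast g' f :=
  fun k hk => h k (lt_of_lt_of_le hk hg)

/-- the contracting operator `m ↦ w * s(m)` -/
noncomputable def op (w : K) (m : K) : K := w * sK m

theorem op_sub (w m m' : K) : op w (m - m') = op w m - op w m' := by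
  simp [op, mul_sub]

theorem atLeast_iter {w c : K} {p : Ex} (hw : AtLeast 0 w) (hc : AtLeast p c) (n : ℕ) :
    AtLeast ((sg^[n]) p) ((op w)^[n] c) := by
  induction n with
  | zero => simpa using hc
  | succ n ih =>
    rw [Function.iterate_succ_apply', Function.iterate_succ_apply']
    exact hw.mul ih.sK

theorem iter_mono {p : Ex} (hp : 0 < p) {m n : ℕ} (h : m ≤ n) : (sg^[m]) p ≤ (sg^[n]) p := by
  induction n, h using Nat.le_induction with
  | base => exact le_refl _
  | succ n _ ih =>
    refine ih.trans ?_
    rw [Function.iterate_succ_apply', sg_apply]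
    have h1 : 0 < shift ((sg^[n]) p) := by
      have := shift_lt (sg_iter_ge hp n).2
      rwa [map_zero] at this
    exact le_add_of_nonneg_right h1.le

/-- the family of iterates is summable -/
noncomputable def fam (w c : K) (p : Ex) (hp : 0 < p) (hw : AtLeast 0 w) (hc : AtLeast p c) :
    HahnSeries.SummableFamily Ex (ZMod 2) ℕ where
  toFun n := (op w)^[n] c
  isPWO_iUnion_support' := by
    rw [Set.isPWO_iff_isWF, Set.isWF_iff_no_descending_seq]
    intro f hf hmem
    obtain ⟨N, hN⟩ := sg_cofinal hp (f 0)
    have hP : (⋃ n ∈ Finset.range N, ((op w)^[n] c).support).IsPWO := by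
      rw [Finset.isPWO_bUnion]
      intro n _
      exact HahnSeries.isPWO_support _
    rw [Set.isPWO_iff_isWF, Set.isWF_iff_no_descending_seq] at hP
    refine hP f hf (fun k => ?_)
    obtain ⟨n, hn⟩ := Set.mem_iUnion.mp (hmem k)
    have hnN : n < N := by
      by_contra hge
      refine hn (atLeast_iter hw hc n (f k) ?_)
      exact lt_of_le_of_lt (hf.antitone (Nat.zero_le k)) (hN n (not_lt.mp hge))
    exact Set.mem_biUnion (Finset.mem_coe.mpr (Finset.mem_range.mpr hnN)) hn
  finite_co_support' := by
    intro g
    obtain ⟨N, hN⟩ := sg_cofinal hp g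
    refine (Set.finite_lt_nat N).subset (fun n hn => ?_)
    by_contra hge
    exact hn (atLeast_iter hw hc n g (hN n (not_lt.mp hge)))

theorem exists_fix (w c : K) (p : Ex) (hp : 0 < p) (hw : AtLeast 0 w) (hc : AtLeast p c) :
    ∃ m : K, m = c + w * sK m ∧ AtLeast p m := by
  set s := fam w c p hp hw hc with hs
  have hgen : ∀ N, AtLeast ((sg^[N]) p) (s.hsum - ∑ n ∈ Finset.range N, (op w)^[n] c) := by
    intro N k hk
    rw [HahnSeries.coeff_sub, HahnSeries.SummableFamily.coeff_hsum, HahnSeries.coeff_sum]
    rw [finsum_eq_sum_of_support_subset _ (s := Finset.range N), sub_eq_zero]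
    · rfl
    · intro n hn
      simp only [Finset.coe_range, Set.mem_Iio]
      by_contra hge
      exact hn (atLeast_iter hw hc n k (lt_of_lt_of_le hk (iter_mono hp (not_lt.mp hge))))
  refine ⟨s.hsum, ?_, by simpa using hgen 0⟩
  rw [← sub_eq_zero]
  ext h
  obtain ⟨N, hN⟩ := sg_cofinal hp h
  have hlt := hN N le_rfl
  set S : K := ∑ n ∈ Finset.range N, (op w)^[n] c with hS
  have h1 : AtLeast ((sg^[N]) p) (s.hsum - S) := hgen N
  have h2 : AtLeast ((sg^[N]) p) (op w (s.hsum - S)) := by
    have := hw.mul h1.sK
    refine AtLeast.mono this ?_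
    rw [← Function.iterate_succ_apply' (f := sg)]
    exact iter_mono hp (Nat.le_succ N)
  have h3 : S - c - op w S = - ((op w)^[N] c) := by
    have : op w S = ∑ n ∈ Finset.range N, (op w)^[n+1] c := by
      simp only [hS, op, map_sum, Finset.mul_sum, Function.iterate_succ_apply']
    have h4 := Finset.sum_range_succ' (fun n => (op w)^[n] c) N
    have h5 := Finset.sum_range_succ (fun n => (op w)^[n] c) N
    rw [this]
    simp only [Function.iterate_zero, id_eq] at h4
    rw [h5] at h4
    linear_combination h4
  have h6 : s.hsum - (c + w * sK s.hsum) = (s.hsum - S) - op w (s.hsum - S) - (op w)^[N] c := by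
    rw [op_sub]
    have : w * sK s.hsum = op w s.hsum := rfl
    rw [this]
    linear_combination h3
  rw [h6]
  exact ((h1.sub h2).sub (atLeast_iter hw hc N)) h hlt

theorem zmod2_ne_zero {a : ZMod 2} (h : a ≠ 0) : a = 1 := by
  revert a; decide

theorem fixed_zero {q : K} (hq : sK q = q) (h0 : q.coeff 0 = 0) : q = 0 := by
  by_contra hne
  have hord : q.coeff q.order ≠ 0 := by
    exact mt HahnSeries.coeff_order_eq_zero.mp hne
  set g := q.order with hg
  have h1 : (sK q).coeff g ≠ 0 := by rw [hq]; exact hord
  have hr : g ∈ Set.range sg := by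
    by_contra hr
    exact h1 (sK_coeff_notMem _ _ hr)
  obtain ⟨k, hk⟩ := hr
  rw [← hk, sK_coeff] at h1
  have hgk : g ≤ k := HahnSeries.order_le_of_coeff_ne_zero h1
  have h2 : sg g ≤ g := by
    calc sg g ≤ sg k := sg_strictMono.monotone hgk
      _ = g := hk
  have h3 : (sK q).coeff (sg g) ≠ 0 := by rw [sK_coeff]; exact hord
  rw [hq] at h3
  have h4 : g ≤ sg g := HahnSeries.order_le_of_coeff_ne_zero h3
  have h5 : g + shift g = g := by rw [← sg_apply]; exact le_antisymm h2 h4
  have h6 : shift g = 0 := by simpa using h5
  have h7 : g = 0 := shift_inj (by rw [h6, map_zero])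
  rw [h7] at hord
  exact hord h0

theorem fixed_one {q : K} (hq : sK q = q) (hne : q ≠ 0) : q = 1 := by
  have h0 : q.coeff 0 ≠ 0 := fun h => hne (fixed_zero hq h)
  have h1 : sK (q - 1) = q - 1 := by rw [map_sub, hq, map_one]
  have h2 : (q - 1).coeff 0 = 0 := by
    rw [HahnSeries.coeff_sub, zmod2_ne_zero h0, HahnSeries.coeff_one]
    simp
  exact sub_eq_zero.mp (fixed_zero h1 h2)

theorem exists_of_one {y : K} (hy : AtLeast 0 y) (h0 : y.coeff 0 = 1) :
    ∃ e : K, e ≠ 0 ∧ sK e = y * e := by
  by_cases hr : y = 1
  · exact ⟨1, one_ne_zero, by rw [hr, map_one, mul_one]⟩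
  have hyne : y ≠ 0 := by
    rintro rfl
    simp at h0
  have hrne : (1 - y) ≠ 0 := fun h => hr (sub_eq_zero.mp h).symm
  set p := (1 - y).order with hp
  have hpc : (1 - y).coeff p ≠ 0 := by
    exact mt HahnSeries.coeff_order_eq_zero.mp hrne
  have hp0 : 0 < p := by
    by_contra hle
    rcases lt_or_eq_of_le (not_lt.mp hle) with hlt | heq
    · apply hpc
      rw [HahnSeries.coeff_sub, hy p hlt, HahnSeries.coeff_one, if_neg hlt.ne, sub_zero]
    · apply hpc
      rw [heq, HahnSeries.coeff_sub, h0, HahnSeries.coeff_one, if_pos rfl, sub_self]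
  have hpa : AtLeast p (1 - y) := by
    intro h hh
    by_contra hne
    exact absurd hh (not_lt.mpr (HahnSeries.order_le_of_coeff_ne_zero hne))
  -- the inverse of y
  have hyord : y.order = 0 := by
    apply le_antisymm
    · apply HahnSeries.order_le_of_coeff_ne_zero
      rw [h0]; exact one_ne_zero
    · by_contra hlt
      have := hy y.order (not_le.mp hlt)
      rw [HahnSeries.coeff_order_eq_zero] at this
      exact hyne this
  have hword : (y⁻¹).order = 0 := by
    have h := HahnSeries.order_mul hyne (inv_ne_zero hyne)
    rw [mul_inv_cancel₀ hyne, HahnSeries.order_one, hyord, zero_add] at h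
    exact h.symm
  have hw : AtLeast 0 y⁻¹ := by
    intro h hh
    by_contra hne
    have := HahnSeries.order_le_of_coeff_ne_zero hne
    rw [hword] at this
    exact absurd hh (not_lt.mpr this)
  obtain ⟨m, hm, hmp⟩ := exists_fix y⁻¹ (y⁻¹ * (1 - y)) p hp0 hw (hw.mul hpa)
  refine ⟨1 + m, ?_, ?_⟩
  · intro h
    have h2 : (1 + m).coeff 0 = 1 := by
      rw [HahnSeries.coeff_add, hmp 0 hp0, HahnSeries.coeff_one, if_pos rfl, add_zero]
    rw [h] at h2
    simp at h2
  · have h1 : y * m = (1 - y) + sK m := by
      conv_lhs => rw [hm]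
      field_simp
    rw [map_add, map_one, mul_add, mul_one, h1]
    ring

/-- every nonzero `y` is `s(e)/e` for exactly one nonzero `e` -/
theorem exists_unique_quot (y : K) (hy : y ≠ 0) : ∃! e : K, e ≠ 0 ∧ sK e = y * e := by
  have hex : ∃ e : K, e ≠ 0 ∧ sK e = y * e := by
    obtain ⟨k, hk⟩ := shift_surj y.order
    set y1 : K := HahnSeries.single (-y.order) 1 * y with hy1
    have hc : ∀ h, y1.coeff h = y.coeff (h + y.order) := by
      intro h
      rw [hy1, HahnSeries.coeff_single_mul, one_mul, sub_neg_eq_add]
    have h1 : AtLeast 0 y1 := by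
      intro h hh
      rw [hc]
      by_contra hne
      have h3 := HahnSeries.order_le_of_coeff_ne_zero hne
      have h4 : h + y.order < 0 + y.order := add_lt_add_left hh _
      rw [zero_add] at h4
      exact absurd h4 (not_lt.mpr h3)
    have h2 : y1.coeff 0 = 1 := by
      rw [hc, zero_add]
      exact zmod2_ne_zero (mt HahnSeries.coeff_order_eq_zero.mp hy)
    obtain ⟨e1, he1, he⟩ := exists_of_one h1 h2
    refine ⟨HahnSeries.single k 1 * e1, mul_ne_zero ?_ he1, ?_⟩
    · intro h
      have := congrArg (fun f => HahnSeries.coeff f k) h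
      simp at this
    · rw [map_mul, he, sK_single, hy1]
      have h3 : (HahnSeries.single (sg k) (1 : ZMod 2) : K) =
          HahnSeries.single k 1 * HahnSeries.single y.order 1 := by
        rw [HahnSeries.single_mul_single, sg_apply, hk, one_mul]
      have h4 : (HahnSeries.single y.order (1 : ZMod 2) : K) * HahnSeries.single (-y.order) 1 = 1 := by
        rw [HahnSeries.single_mul_single, add_neg_cancel, one_mul]; rfl
      rw [h3]
      linear_combination (HahnSeries.single k 1 * y * e1 : K) * h4
  obtain ⟨e, he, hs⟩ := hex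
  refine ⟨e, ⟨he, hs⟩, ?_⟩
  rintro e' ⟨he', hs'⟩
  have h1 : sK (e' / e) = e' / e := by
    rw [map_div₀, hs, hs']
    field_simp
  have h2 := fixed_one h1 (div_ne_zero he' he)
  rwa [div_eq_one_iff_eq he] at h2

/-- the elements of `K` all of whose exponents have nonnegative alternating sum -/
def X : AddSubgroup K where
  carrier := {f | ∀ g, f.coeff g ≠ 0 → 0 ≤ alt g}
  zero_mem' := by intro g hg; simp at hg
  add_mem' := by
    intro a b ha hb g hg
    by_cases h : a.coeff g = 0
    · refine hb g ?_
      rw [HahnSeries.coeff_add, h, zero_add] at hg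
      exact hg
    · exact ha g h
  neg_mem' := by
    intro a ha g hg
    rw [HahnSeries.coeff_neg, neg_ne_zero] at hg
    exact ha g hg

theorem X_smul (k x : K) (hx : x ∈ X) : sK k * x ∈ X := by
  intro g hg
  have h1 : g ∈ (sK k * x).support := hg
  obtain ⟨a, ha, b, hb, rfl⟩ := Set.mem_add.mp (HahnSeries.support_mul_subset h1)
  have hr : a ∈ Set.range sg := by
    by_contra hr
    exact ha (sK_coeff_notMem _ _ hr)
  obtain ⟨c, rfl⟩ := hr
  rw [map_add, alt_sg, zero_add]
  exact hx b hb

/-- the multiplier -/
noncomputable def th : K := HahnSeries.single (toColex (Finsupp.single 0 1)) 1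

theorem th_mem {x : K} (hx : x ∈ X) : th * x ∈ X := by
  intro g hg
  rw [th, HahnSeries.coeff_single_mul, one_mul] at hg
  have h1 := hx _ hg
  rw [map_sub, alt_single] at h1
  simp at h1
  omega

theorem one_mem_X : (1 : K) ∈ X := by
  intro g hg
  rw [HahnSeries.coeff_one] at hg
  have : g = 0 := by
    by_contra h
    exact hg (if_neg h)
  rw [this, map_zero]

theorem th_ne {x : K} (hx : x ∈ X) : th * x ≠ 1 := by
  intro h
  have h1 : (th * x).coeff 0 = 1 := by rw [h, HahnSeries.coeff_one, if_pos rfl]
  rw [th, HahnSeries.coeff_single_mul, one_mul, zero_sub] at h1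
  have h2 := hx (-(toColex (Finsupp.single 0 1))) (by rw [h1]; exact one_ne_zero)
  rw [map_neg, alt_single] at h2
  simp at h2

theorem th_ne_zero : th ≠ 0 := by
  intro h
  have := congrArg (fun f => HahnSeries.coeff f (toColex (Finsupp.single 0 1))) h
  simp [th] at this


/-- product of an element of the image of `sK` and an element of `X` -/
noncomputable def smulX (b : K) : X →+ X where
  toFun x := ⟨sK b * x, X_smul b x x.2⟩
  map_zero' := by apply Subtype.ext; simp
  map_add' x y := by apply Subtype.ext; simp [mul_add]

theorem smulX_coe (b : K) (x : X) : ((smulX b x : X) : K) = sK b * x := rfl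

/-- first coordinate maps -/
noncomputable def cu : Option K → (X × X × K) →+ X
  | none => (AddMonoidHom.fst X K).comp (AddMonoidHom.snd X (X × K))
  | some b => AddMonoidHom.fst X (X × K) -
      (smulX b).comp ((AddMonoidHom.fst X K).comp (AddMonoidHom.snd X (X × K)))

/-- second coordinate maps -/
noncomputable def cv : Option K → (X × X × K) →+ K
  | none => (AddMonoidHom.snd X K).comp (AddMonoidHom.snd X (X × K))
  | some b => (AddMonoidHom.snd X K).comp (AddMonoidHom.snd X (X × K)) -
      (AddMonoidHom.mulLeft b).comp (X.subtype.comp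
        ((AddMonoidHom.fst X K).comp (AddMonoidHom.snd X (X × K))))

theorem cu_none (g : X × X × K) : cu none g = g.2.1 := rfl
theorem cu_some (b : K) (g : X × X × K) : cu (some b) g = g.1 - smulX b g.2.1 := rfl
theorem cu_some_coe (b : K) (g : X × X × K) :
    ((cu (some b) g : X) : K) = (g.1 : K) - sK b * g.2.1 := rfl
theorem cv_none (g : X × X × K) : cv none g = g.2.2 := rfl
theorem cv_some (b : K) (g : X × X × K) : cv (some b) g = g.2.2 - b * g.2.1 := rfl

/-- division by a nonzero element of the image of `sK` -/
noncomputable def divX (b : K) (x : X) : X := smulX b⁻¹ x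

theorem divX_coe (b : K) (x : X) : ((divX b x : X) : K) = (sK b)⁻¹ * x := by
  rw [divX, smulX_coe, map_inv₀]

theorem sK_ne_zero {b : K} (hb : b ≠ 0) : sK b ≠ 0 := (map_ne_zero sK).mpr hb

theorem good : Good cu cv where
  hU := ⟨⟨1, one_mem_X⟩, fun h => one_ne_zero (congrArg Subtype.val h : (1 : K) = 0)⟩
  hV := ⟨1, one_ne_zero⟩
  three := ⟨none, some 0, some 1, by simp, by simp, by simp⟩
  h3 := by
    intro i j hij a b c
    cases i with
    | none =>
      cases j with
      | none => exact absurd rfl hij
      | some j =>
        refine ⟨(c + smulX j a, a, b), ⟨rfl, rfl, ?_⟩, ?_⟩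
        · rw [cu_some]; simp
        · rintro ⟨x, y, z⟩ ⟨h1, h2, h3⟩
          rw [cu_none] at h1
          rw [cv_none] at h2
          rw [cu_some] at h3
          simp only at h1 h2 h3
          subst h1 h2 h3
          simp
    | some i =>
      cases j with
      | none =>
        refine ⟨(a + smulX i c, c, b + i * c), ⟨?_, ?_, rfl⟩, ?_⟩
        · rw [cu_some]; simp
        · rw [cv_some]; simp
        · rintro ⟨x, y, z⟩ ⟨h1, h2, h3⟩
          rw [cu_none] at h3
          rw [cv_some] at h2
          rw [cu_some] at h1
          simp only at h1 h2 h3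
          subst h3 h2 h1
          simp
      | some j =>
        have hne : j - i ≠ 0 := fun h => hij (by rw [sub_eq_zero.mp h])
        have hs := sK_ne_zero hne
        rw [map_sub] at hs
        -- a = x - s i * y, c = x - s j * y
        refine ⟨(a + smulX i (divX (j - i) (a - c)), divX (j - i) (a - c),
          b + i * divX (j - i) (a - c)), ⟨?_, ?_, ?_⟩, ?_⟩
        · rw [cu_some]; simp
        · rw [cv_some]; simp
        · apply Subtype.ext
          rw [cu_some_coe]
          simp only [AddSubgroup.coe_add, smulX_coe, divX_coe, AddSubgroup.coe_sub, map_sub]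
          field_simp
          ring
        · rintro ⟨x, y, z⟩ ⟨h1, h2, h3⟩
          have hy : y = divX (j - i) (a - c) := by
            apply Subtype.ext
            have h1' := congrArg Subtype.val h1
            have h3' := congrArg Subtype.val h3
            simp only [cu_some_coe] at h1' h3'
            rw [divX_coe, AddSubgroup.coe_sub, ← h1', ← h3', map_sub]
            field_simp
            ring
          rw [← hy]
          rw [cv_some] at h2
          rw [cu_some] at h1
          simp only at h1 h2
          subst h2 h1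
          simp
  h4 := by
    intro i a ha b
    have ha' : (a : K) ≠ 0 := fun h => ha (Subtype.ext h)
    cases i with
    | none =>
      -- d = (s c * a, a, c * a), c = b / a
      refine ⟨(smulX (b / a) a, a, b), ⟨⟨some (b / a), ?_, ?_⟩, rfl, rfl⟩, ?_⟩
      · rw [cu_some]; simp
      · rw [cv_some]; simp only; field_simp; ring
      · rintro ⟨x, y, z⟩ ⟨⟨j, h1, h2⟩, h3, h4⟩
        rw [cu_none] at h3
        rw [cv_none] at h4
        simp only at h3 h4
        subst h3 h4
        cases j with
        | none => exact absurd h1 ha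
        | some j =>
          rw [cu_some] at h1
          rw [cv_some] at h2
          simp only at h1 h2
          have hj : j = z / y := by
            rw [eq_div_iff ha', sub_eq_zero.mp h2]
          rw [sub_eq_zero.mp h1, hj]
    | some i =>
      by_cases hb : b = 0
      · subst hb
        refine ⟨(a, 0, 0), ⟨⟨none, rfl, rfl⟩, ?_, ?_⟩, ?_⟩
        · rw [cu_some]; simp
        · rw [cv_some]; simp
        · rintro ⟨x, y, z⟩ ⟨⟨j, h1, h2⟩, h3, h4⟩
          cases j with
          | none =>
            rw [cu_none] at h1
            rw [cv_none] at h2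
            rw [cu_some] at h3
            simp only at h1 h2 h3
            subst h1 h2
            rw [map_zero, sub_zero] at h3
            rw [h3]
          | some j =>
            exfalso
            rw [cu_some] at h1 h3
            rw [cv_some] at h2 h4
            simp only at h1 h2 h3 h4
            have h5 : (j - i) * (y : K) = 0 := by linear_combination h4 - h2
            rcases mul_eq_zero.mp h5 with h6 | h6
            · rw [sub_eq_zero.mp h6] at h1
              exact ha (h3.symm.trans h1)
            · have h7 : y = 0 := Subtype.ext h6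
              subst h7
              rw [map_zero, sub_zero] at h1 h3
              exact ha (h3.symm.trans h1)
      · -- d = (s c * y, y, c * y), e = c - i, s e * y = a, e * y = b
        obtain ⟨e, ⟨he, hse⟩, hu⟩ := exists_unique_quot ((a : K) / b) (div_ne_zero ha' hb)
        have hs := sK_ne_zero he
        have hy : (divX e a : K) = b / e := by
          rw [divX_coe, hse]
          field_simp
        refine ⟨(smulX (e + i) (divX e a), divX e a, (e + i) * divX e a),
          ⟨⟨some (e + i), ?_, ?_⟩, ?_, ?_⟩, ?_⟩
        · rw [cu_some]; simp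
        · rw [cv_some]; simp
        · apply Subtype.ext
          rw [cu_some_coe]
          simp only [smulX_coe, divX_coe, map_add]
          field_simp
          ring
        · rw [cv_some]
          simp only
          rw [hy]
          field_simp
          ring
        · rintro ⟨x, y, z⟩ ⟨⟨j, h1, h2⟩, h3, h4⟩
          cases j with
          | none =>
            exfalso
            rw [cu_none] at h1
            rw [cv_none] at h2
            rw [cv_some] at h4
            simp only at h1 h2 h4
            subst h1 h2
            apply hb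
            rw [← h4]; simp
          | some j =>
            rw [cu_some] at h1
            rw [cv_some] at h2 h4
            have h3' := congrArg Subtype.val h3
            rw [cu_some_coe] at h3'
            simp only at h1 h2 h4 h3'
            have h1' := congrArg Subtype.val (sub_eq_zero.mp h1)
            rw [smulX_coe] at h1'
            have h5 : (j - i) * (y : K) = b := by linear_combination h4 - h2
            have h6 : sK (j - i) * (y : K) = a := by
              rw [map_sub]; linear_combination h3' - h1'
            have hji : j - i ≠ 0 := by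
              intro h0; rw [h0, zero_mul] at h5; exact hb h5.symm
            have hy0 : (y : K) ≠ 0 := by
              intro h0; rw [h0, mul_zero] at h5; exact hb h5.symm
            have hje : j - i = e := by
              refine hu _ ⟨hji, ?_⟩
              rw [← h5, ← h6]
              field_simp
            have hyy : y = divX e a := by
              apply Subtype.ext
              rw [hy, ← hje, ← h5]
              field_simp
            have hj : j = e + i := by rw [← hje]; ring
            rw [← hyy, ← hj, sub_eq_zero.mp h1, sub_eq_zero.mp h2]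

/-- multiplication by `th` on `X` -/
noncomputable def thX : X →+ X where
  toFun x := ⟨th * x, th_mem x.2⟩
  map_zero' := by apply Subtype.ext; simp
  map_add' x y := by apply Subtype.ext; simp [mul_add]

/-- multiplication by `th` on the coordinate group -/
noncomputable def thG : (X × X × K) →+ (X × X × K) :=
  AddMonoidHom.prodMap thX (AddMonoidHom.prodMap thX (AddMonoidHom.mulLeft th))

theorem thG_cu (i : Option K) (d : X × X × K) : cu i (thG d) = thX (cu i d) := by
  cases i with
  | none => rfl
  | some b =>
    apply Subtype.ext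
    change th * d.1 - sK b * (th * d.2.1) = th * (d.1 - sK b * d.2.1)
    ring

theorem thG_cv (i : Option K) (d : X × X × K) : cv i (thG d) = th * (cv i d) := by
  cases i with
  | none => rfl
  | some b =>
    change th * d.2.2 - b * (th * d.2.1) = th * (d.2.2 - b * d.2.1)
    ring

/-- There is a translation generalized quadrangle whose kernel contains a nonzero element without
a two-sided inverse in the kernel: the kernel is not a division ring. -/
theorem result :
    ∃ (P L : Type) (I : P → L → Prop) (x : P) (G : Subgroup (Equiv.Perm P × Equiv.Perm L))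
      (_ : IsMulCommutative G), IsTGQ I x G ∧ (∃ y, ¬ Collinear I x y) ∧
      ∀ y, ¬ Collinear I x y → ∃ a ∈ kernel I x y G, a ≠ 0 ∧
        ¬ ∃ b ∈ kernel I x y G, a * b = 1 ∧ b * a = 1 := by
  refine good.main thG ?_ ?_ ?_ ?_
  · intro i d h
    rw [thG_cu, h, map_zero]
  · intro i d _ h
    rw [thG_cv, h, mul_zero]
  · refine ⟨(0, 0, 1), ?_⟩
    intro h
    have := congrArg (fun t => t.2.2) h
    change th * 1 = 0 at this
    rw [mul_one] at this
    exact th_ne_zero this
  · intro hs
    obtain ⟨d, hd⟩ := hs (⟨1, one_mem_X⟩, 0, 0)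
    have h1 := congrArg (fun t => ((t.1 : X) : K)) hd
    exact th_ne d.1.2 h1

end Pool.Agent.Results.MP_0f105f_co.NonlinearTGQ
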